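import Mathlib

/-!
# A box space of the free group of rank two: a metric space of bounded geometry without property A
-/

set_option autoImplicit false

namespace Pool.Agent.K878.ONL

/-- the free group of rank two -/
abbrev F : Type := FreeGroup Bool

/-- the elements of length at most `n` -/
abbrev W (n : ℕ) : Type := {w : F // w.norm ≤ n}

theorem finite_norm_le (n : ℕ) : {w : F | w.norm ≤ n}.Finite := by
  have h := List.finite_length_le (Bool × Bool) n
  refine Set.Finite.subset (h.image (fun l => (FreeGroup.mk l : F))) ?_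
  intro w hw
  exact ⟨w.toWord, hw, FreeGroup.mk_toWord⟩

instance (n : ℕ) : Finite (W n) := (finite_norm_le n).to_subtype

noncomputable instance (n : ℕ) : Fintype (W n) := Fintype.ofFinite _

/-- multiplication by a generator on a part of `W n` -/
noncomputable def gEquiv (n : ℕ) (i : Bool) :
    {w : W n // (FreeGroup.of i * w.1).norm ≤ n} ≃ {w : W n // ((FreeGroup.of i)⁻¹ * w.1).norm ≤ n} where
  toFun w := ⟨⟨FreeGroup.of i * w.1.1, w.2⟩, by simpa using w.1.2⟩
  invFun w := ⟨⟨(FreeGroup.of i)⁻¹ * w.1.1, w.2⟩, by simpa using w.1.2⟩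
  left_inv w := by ext; simp
  right_inv w := by ext; simp

/-- a permutation of `W n` which extends the multiplication by a generator -/
noncomputable def gen (n : ℕ) (i : Bool) : Equiv.Perm (W n) := by
  classical exact (gEquiv n i).extendSubtype

theorem gen_apply (n : ℕ) (i : Bool) (w : W n) (h : (FreeGroup.of i * w.1).norm ≤ n) :
    gen n i w = ⟨FreeGroup.of i * w.1, h⟩ := by
  classical
  unfold gen
  rw [Equiv.extendSubtype_apply_of_mem _ w h]
  rfl

theorem gen_inv_apply (n : ℕ) (i : Bool) (w : W n) (h : ((FreeGroup.of i)⁻¹ * w.1).norm ≤ n) :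
    (gen n i)⁻¹ w = ⟨(FreeGroup.of i)⁻¹ * w.1, h⟩ := by
  rw [Equiv.Perm.inv_eq_iff_eq, gen_apply]
  · ext; simp
  · simpa using w.2

/-- the homomorphism from the free group to the permutations of `W n` -/
noncomputable def phi (n : ℕ) : F →* Equiv.Perm (W n) := FreeGroup.lift (gen n)

/-- the neutral element as an element of `W n` -/
noncomputable def o (n : ℕ) : W n := ⟨1, by simp⟩

theorem phi_mk (n : ℕ) (L : List (Bool × Bool)) (hL : L.length ≤ n) :
    ((phi n (FreeGroup.mk L)) (o n)).1 = FreeGroup.mk L := by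
  induction L with
  | nil =>
    have : (FreeGroup.mk [] : F) = 1 := rfl
    rw [this]; simp [o]
  | cons a L ih =>
    have hL' : L.length ≤ n := by simp at hL; omega
    have ih := ih hL'
    have hcons : (FreeGroup.mk (a :: L) : F) = FreeGroup.mk [a] * FreeGroup.mk L := by
      simp
    have hn : (FreeGroup.mk (a :: L) : F).norm ≤ n := FreeGroup.norm_mk_le.trans hL
    have hx : (phi n (FreeGroup.mk L)) (o n) = ⟨FreeGroup.mk L, FreeGroup.norm_mk_le.trans hL'⟩ :=
      Subtype.ext ih
    rw [hcons, map_mul, Equiv.Perm.mul_apply, hx]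
    obtain ⟨i, b⟩ := a
    cases b with
    | true =>
      have h1 : (FreeGroup.mk [(i, true)] : F) = FreeGroup.of i := rfl
      rw [h1] at hcons ⊢
      have h2 : phi n (FreeGroup.of i) = gen n i := by simp [phi]
      rw [h2, gen_apply n i _ (by rw [← hcons]; exact hn)]
    | false =>
      have h1 : (FreeGroup.mk [(i, false)] : F) = (FreeGroup.of i)⁻¹ := rfl
      rw [h1] at hcons ⊢
      have h2 : phi n (FreeGroup.of i)⁻¹ = (gen n i)⁻¹ := by simp [phi]
      rw [h2, gen_inv_apply n i _ (by rw [← hcons]; exact hn)]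

theorem phi_ne_one (n : ℕ) (w : F) (hw : w.norm ≤ n) (h : phi n w = 1) : w = 1 := by
  have h1 := phi_mk n w.toWord hw
  rw [FreeGroup.mk_toWord, h] at h1
  simpa [o] using h1.symm

/-- the word length, cut off at `n + 1` -/
noncomputable def len (n : ℕ) (g : Equiv.Perm (W n)) : ℕ :=
  sInf {k | k = n + 1 ∨ ∃ w : F, phi n w = g ∧ w.norm = k}

theorem len_spec (n : ℕ) (g : Equiv.Perm (W n)) :
    len n g = n + 1 ∨ ∃ w : F, phi n w = g ∧ w.norm = len n g :=
  Nat.sInf_mem (s := {k | k = n + 1 ∨ ∃ w : F, phi n w = g ∧ w.norm = k}) ⟨n + 1, Or.inl rfl⟩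

theorem len_le (n : ℕ) (g : Equiv.Perm (W n)) : len n g ≤ n + 1 :=
  Nat.sInf_le (Or.inl rfl)

theorem len_phi_le (n : ℕ) (w : F) : len n (phi n w) ≤ w.norm :=
  Nat.sInf_le (Or.inr ⟨w, rfl, rfl⟩)

theorem len_one (n : ℕ) : len n 1 = 0 := by
  have := len_phi_le n 1
  simpa using this

theorem len_inv_le (n : ℕ) (g : Equiv.Perm (W n)) : len n g⁻¹ ≤ len n g := by
  rcases len_spec n g with h | ⟨w, rfl, h⟩
  · rw [h]; exact len_le n _
  · rw [← h, ← FreeGroup.norm_inv_eq, ← map_inv]
    exact len_phi_le n _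

theorem len_inv (n : ℕ) (g : Equiv.Perm (W n)) : len n g⁻¹ = len n g := by
  refine le_antisymm (len_inv_le n g) ?_
  simpa using len_inv_le n g⁻¹

theorem len_mul_le (n : ℕ) (g h : Equiv.Perm (W n)) : len n (g * h) ≤ len n g + len n h := by
  have h0 := len_le n (g * h)
  rcases len_spec n g with h1 | ⟨w, rfl, h1⟩
  · omega
  · rcases len_spec n h with h2 | ⟨v, rfl, h2⟩
    · omega
    · rw [← h1, ← h2, ← map_mul]
      exact (len_phi_le n _).trans (FreeGroup.norm_mul_le _ _)

theorem len_eq_zero (n : ℕ) (g : Equiv.Perm (W n)) (h : len n g = 0) : g = 1 := by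
  rcases len_spec n g with h1 | ⟨w, rfl, h1⟩
  · omega
  · rw [h, FreeGroup.norm_eq_zero] at h1
    rw [h1, map_one]

/-- the box space -/
structure X : Type where
  /-- the number of the piece -/
  n : ℕ
  /-- the element of the finite group -/
  g : Equiv.Perm (W n)

open Classical in
/-- the distance on the box space -/
noncomputable def D : X → X → ℕ := fun x y =>
  if h : x.1 = y.1 then len y.1 ((h ▸ x.2)⁻¹ * y.2) else max x.1 y.1 + 1

theorem D_same (n : ℕ) (g h : Equiv.Perm (W n)) :
    D ⟨n, g⟩ ⟨n, h⟩ = len n (g⁻¹ * h) := by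
  simp [D]

theorem D_ne (x y : X) (h : x.1 ≠ y.1) : D x y = max x.1 y.1 + 1 := by
  simp [D, h]

theorem D_le (x y : X) : D x y ≤ max x.1 y.1 + 1 := by
  by_cases h : x.1 = y.1
  · obtain ⟨m, g⟩ := x
    obtain ⟨n, k⟩ := y
    simp only at h
    subst h
    rw [D_same]
    have := len_le m (g⁻¹ * k)
    simpa using this
  · rw [D_ne x y h]

theorem D_self (x : X) : D x x = 0 := by
  obtain ⟨m, g⟩ := x
  rw [D_same]; simp [len_one]

theorem D_comm (x y : X) : D x y = D y x := by
  by_cases h : x.1 = y.1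
  · obtain ⟨m, g⟩ := x
    obtain ⟨n, k⟩ := y
    simp only at h
    subst h
    rw [D_same, D_same, ← len_inv]; simp
  · rw [D_ne x y h, D_ne y x (Ne.symm h), max_comm]

theorem D_tri (x y z : X) : D x z ≤ D x y + D y z := by
  by_cases h1 : x.1 = y.1
  · by_cases h2 : y.1 = z.1
    · obtain ⟨m, g⟩ := x
      obtain ⟨n, k⟩ := y
      obtain ⟨p, l⟩ := z
      simp only at h1 h2
      subst h1
      subst h2
      rw [D_same, D_same, D_same]
      have := len_mul_le m (g⁻¹ * k) (k⁻¹ * l)
      simpa [mul_assoc] using this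
    · have h3 : x.1 ≠ z.1 := by rw [h1]; exact h2
      rw [D_ne x z h3, D_ne y z h2, h1]; omega
  · rw [D_ne x y h1]
    by_cases h2 : y.1 = z.1
    · have := D_le x z
      rw [← h2] at this
      omega
    · rw [D_ne y z h2]
      have := D_le x z
      omega

theorem D_eq_zero (x y : X) (h : D x y = 0) : x = y := by
  by_cases h1 : x.1 = y.1
  · obtain ⟨m, g⟩ := x
    obtain ⟨n, k⟩ := y
    simp only at h1
    subst h1
    rw [D_same] at h
    have := len_eq_zero m _ h
    rw [inv_mul_eq_one] at this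
    rw [this]
  · rw [D_ne x y h1] at h; omega

noncomputable instance : MetricSpace X where
  dist x y := (D x y : ℝ)
  dist_self x := by simp [D_self]
  dist_comm x y := by rw [D_comm]
  dist_triangle x y z := by
    have := D_tri x y z
    exact_mod_cast this
  eq_of_dist_eq_zero {x y} h := D_eq_zero x y (by exact_mod_cast h)

theorem dist_def (x y : X) : dist x y = (D x y : ℝ) := rfl

instance : Countable X := by
  have : Function.Injective (fun x : X => (⟨x.1, x.2⟩ : Σ n : ℕ, Equiv.Perm (W n))) := by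
    rintro ⟨m, g⟩ ⟨n, k⟩ h
    simp only [Sigma.mk.injEq] at h
    obtain ⟨rfl, h⟩ := h
    rw [heq_iff_eq] at h
    rw [h]
  exact this.countable

/-- the part of the box space below `K` is finite -/
theorem finite_below (K : ℕ) : {x : X | x.1 < K}.Finite := by
  have : {x : X | x.1 < K} ⊆ ⋃ n ∈ Set.Iio K, Set.range (fun g : Equiv.Perm (W n) => (⟨n, g⟩ : X)) := by
    rintro ⟨n, g⟩ h
    simp only [Set.mem_iUnion]
    exact ⟨n, h, ⟨g, rfl⟩⟩
  refine Set.Finite.subset ?_ this
  exact (Set.finite_Iio K).biUnion fun n _ => Set.finite_range _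

/-- bounded geometry -/
theorem bounded_geometry (R : ℝ) : ∃ N : ℕ, ∀ x : X,
    (Metric.ball x R).Finite ∧ (Metric.ball x R).ncard ≤ N := by
  obtain ⟨K, hK⟩ := exists_nat_ge R
  refine ⟨{x : X | x.1 < K}.ncard + {w : F | w.norm ≤ K}.ncard, ?_⟩
  rintro ⟨m, g⟩
  have hsub : Metric.ball (⟨m, g⟩ : X) R ⊆ {x : X | x.1 < K} ∪
      (fun w : F => (⟨m, g * phi m w⟩ : X)) '' {w : F | w.norm ≤ K} := by
    rintro y hy
    rw [Metric.mem_ball, dist_comm, dist_def] at hy
    have hy' : D ⟨m, g⟩ y < K := by exact_mod_cast hy.trans_le hK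
    by_cases h : m = y.1
    · obtain ⟨n, k⟩ := y
      simp only at h
      subst h
      rw [D_same] at hy'
      rcases len_spec m (g⁻¹ * k) with h1 | ⟨w, h1, h2⟩
      · left
        show m < K
        omega
      · right
        refine ⟨w, ?_, ?_⟩
        · show w.norm ≤ K
          omega
        · simp only [h1]
          simp
    · left
      rw [D_ne _ _ h] at hy'
      show y.1 < K
      simp only at hy'
      omega
  have hfin : ({x : X | x.1 < K} ∪
      (fun w : F => (⟨m, g * phi m w⟩ : X)) '' {w : F | w.norm ≤ K}).Finite :=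
    (finite_below K).union ((finite_norm_le K).image _)
  refine ⟨hfin.subset hsub, ?_⟩
  refine (Set.ncard_le_ncard hsub hfin).trans ((Set.ncard_union_le _ _).trans ?_)
  exact Nat.add_le_add_left (Set.ncard_image_le (finite_norm_le K)) _

end Pool.Agent.K878.ONL
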