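import Pool.Agent.K878.ONL.Box

/-!
# The box space does not have property A
-/

set_option autoImplicit false

namespace Pool.Agent.K878.ONL

open Finset

theorem of_norm (i : Bool) : (FreeGroup.of i : F).norm = 1 := FreeGroup.norm_of i

/-- Two short words with the same image are equal. -/
theorem phi_inj (n s : ℕ) (hn : 2 * s + 1 ≤ n) (v w : F) (hv : v.norm ≤ s) (hw : w.norm ≤ s + 1)
    (h : phi n v = phi n w) : v = w := by
  have h1 : phi n (v⁻¹ * w) = 1 := by rw [map_mul, map_inv, h]; simp
  have h2 : (v⁻¹ * w).norm ≤ n := by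
    refine (FreeGroup.norm_mul_le _ _).trans ?_
    rw [FreeGroup.norm_inv_eq]; omega
  have := phi_ne_one n _ h2 h1
  rw [inv_mul_eq_one] at this
  exact this

open Classical in
theorem not_propertyA : ¬ (∀ R : ℝ, 0 < R → ∀ ε : ℝ, 0 < ε →
        ∃ S : ℝ, ∃ A : X → Set (X × ℕ),
          (∀ x, (A x).Finite) ∧ (∀ x, (x, 0) ∈ A x) ∧
          (∀ x, ∀ w ∈ A x, dist w.1 x ≤ S) ∧
          ∀ x y, dist x y < R →
            ((symmDiff (A x) (A y)).ncard : ℝ) < ε * ((A x ∩ A y).ncard : ℝ)) := by
  intro hA
  obtain ⟨S, A, hfin, h0, hsupp, hvar⟩ := hA 2 (by norm_num) (1 / 4) (by norm_num)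
  obtain ⟨s, hs⟩ := exists_nat_ge S
  set n : ℕ := 2 * s + 1 with hn
  -- the finite sets
  let B : Equiv.Perm (W n) → Finset (X × ℕ) := fun x => (hfin ⟨n, x⟩).toFinset
  have hB : ∀ x p, p ∈ B x ↔ p ∈ A ⟨n, x⟩ := fun x p => by simp [B]
  -- each element is given by a short word
  have hword : ∀ x : Equiv.Perm (W n), ∀ p : X × ℕ, ∃ w : F, p ∈ B x →
      w.norm ≤ s ∧ p.1 = ⟨n, x * phi n w⟩ := by
    intro x p
    by_cases hp : p ∈ B x
    · have h1 := hsupp ⟨n, x⟩ p ((hB x p).1 hp)
      rw [dist_comm, dist_def] at h1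
      have h2 : D ⟨n, x⟩ p.1 ≤ s := by exact_mod_cast h1.trans hs
      obtain ⟨⟨m, g⟩, k⟩ := p
      simp only at h2
      by_cases hm : n = m
      · clear_value n
        subst hm
        rw [D_same] at h2
        rcases len_spec n (x⁻¹ * g) with h3 | ⟨w, h3, h4⟩
        · omega
        · refine ⟨w, fun _ => ⟨by omega, ?_⟩⟩
          simp only [h3]
          simp
      · rw [D_ne _ _ hm] at h2
        simp only at h2
        omega
    · exact ⟨1, fun h => absurd h hp⟩
  choose ρ hρ using hword
  -- the mass
  let m : Set F → ℕ := fun E => ∑ x : Equiv.Perm (W n), ((B x).filter (fun p => ρ x p ∈ E)).card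
  let T : ℕ := ∑ x : Equiv.Perm (W n), (B x).card
  have hT : 0 < T := by
    refine Finset.sum_pos (fun x _ => ?_) Finset.univ_nonempty
    exact Finset.card_pos.2 ⟨(⟨n, x⟩, 0), (hB x _).2 (h0 _)⟩
  -- subadditivity
  have hsub : ∀ E1 E2 : Set F, E1 ∪ E2 = Set.univ → T ≤ m E1 + m E2 := by
    intro E1 E2 h
    rw [← Finset.sum_add_distrib]
    refine Finset.sum_le_sum fun x _ => ?_
    refine (Finset.card_le_card ?_).trans (Finset.card_union_le _ _)
    intro p hp
    have : ρ x p ∈ E1 ∪ E2 := by rw [h]; trivial
    rcases this with h | h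
    · exact Finset.mem_union_left _ (Finset.mem_filter.2 ⟨hp, h⟩)
    · exact Finset.mem_union_right _ (Finset.mem_filter.2 ⟨hp, h⟩)
  -- the four sets
  have hfour : ∑ c : Bool × Bool, m (FreeGroup.startsWith c) ≤ T := by
    show ∑ c : Bool × Bool, ∑ x : Equiv.Perm (W n), _ ≤ _
    rw [Finset.sum_comm]
    refine Finset.sum_le_sum fun x _ => ?_
    rw [Finset.card_eq_sum_card_fiberwise (s := B x) (t := Finset.univ)
      (f := fun p => (ρ x p).toWord[0]?) (fun _ _ => Finset.mem_coe.2 (Finset.mem_univ _)),
      Fintype.sum_option]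
    refine le_trans (le_of_eq ?_) (Nat.le_add_left _ _)
    refine Finset.sum_congr rfl fun c _ => ?_
    refine congrArg Finset.card ?_
    ext p
    rw [Finset.mem_filter, Finset.mem_filter]
    exact Iff.rfl
  -- translation by a generator
  have htrans : ∀ (i : Bool) (E : Set F),
      (m ((fun w => FreeGroup.of i * w) '' E) : ℝ) ≤ m E + (1 / 4) * T := by
    intro i E
    set t := phi n (FreeGroup.of i) with ht
    have hstep : ∀ x : Equiv.Perm (W n),
        (((B x).filter (fun p => ρ x p ∈ (fun w => FreeGroup.of i * w) '' E)).card : ℝ) ≤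
        ((B (x * t)).filter (fun p => ρ (x * t) p ∈ E)).card + (1 / 4) * (B x).card := by
      intro x
      have h1 : (B x).filter (fun p => ρ x p ∈ (fun w => FreeGroup.of i * w) '' E) ⊆
          (B (x * t)).filter (fun p => ρ (x * t) p ∈ E) ∪ (B x \ B (x * t)) := by
        intro p hp
        rw [Finset.mem_filter] at hp
        obtain ⟨hp, w, hw, hpw⟩ := hp
        simp only at hpw
        by_cases hq : p ∈ B (x * t)
        · refine Finset.mem_union_left _ (Finset.mem_filter.2 ⟨hq, ?_⟩)
          obtain ⟨a1, a2⟩ := hρ x p hp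
          obtain ⟨b1, b2⟩ := hρ (x * t) p hq
          have hnw : w.norm ≤ s + 1 := by
            have : w = (FreeGroup.of i)⁻¹ * ρ x p := by rw [← hpw]; simp
            rw [this]
            refine (FreeGroup.norm_mul_le _ _).trans ?_
            rw [FreeGroup.norm_inv_eq, of_norm]; omega
          have hEq : phi n (ρ (x * t) p) = phi n w := by
            rw [a2, ← hpw, map_mul, ← ht] at b2
            simp only [X.mk.injEq, heq_eq_eq, true_and] at b2
            rw [← mul_assoc] at b2
            exact (mul_left_cancel b2).symm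
          rw [phi_inj n s le_rfl _ _ b1 hnw hEq]
          exact hw
        · exact Finset.mem_union_right _ (Finset.mem_sdiff.2 ⟨hp, hq⟩)
      have h2 := (Finset.card_le_card h1).trans (Finset.card_union_le _ _)
      have h3 : (((B x \ B (x * t)).card : ℕ) : ℝ) ≤ (1 / 4) * (B x).card := by
        have hd : dist (⟨n, x⟩ : X) ⟨n, x * t⟩ < 2 := by
          rw [dist_def, D_same]
          have : len n (x⁻¹ * (x * t)) ≤ 1 := by
            rw [inv_mul_cancel_left, ht]
            exact (len_phi_le n _).trans (of_norm i).le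
          have : (len n (x⁻¹ * (x * t)) : ℝ) ≤ 1 := by exact_mod_cast this
          linarith
        have hv := hvar _ _ hd
        have e1 : (B x \ B (x * t)).card ≤ (symmDiff (A ⟨n, x⟩) (A ⟨n, x * t⟩)).ncard := by
          rw [← Set.ncard_coe_finset]
          refine Set.ncard_le_ncard ?_ ((hfin _).symmDiff (hfin _))
          intro p hp
          rw [Finset.mem_coe, Finset.mem_sdiff, hB, hB] at hp
          exact Or.inl hp
        have e2 : (A ⟨n, x⟩ ∩ A ⟨n, x * t⟩).ncard ≤ (B x).card := by
          rw [← Set.ncard_coe_finset]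
          refine Set.ncard_le_ncard ?_ (Finset.finite_toSet _)
          intro p hp
          exact Finset.mem_coe.2 ((hB x p).2 hp.1)
        have e1' : ((B x \ B (x * t)).card : ℝ) ≤
          ((symmDiff (A ⟨n, x⟩) (A ⟨n, x * t⟩)).ncard : ℝ) := by exact_mod_cast e1
        have e2' : ((A ⟨n, x⟩ ∩ A ⟨n, x * t⟩).ncard : ℝ) ≤ ((B x).card : ℝ) := by exact_mod_cast e2
        linarith
      have h2' : (((B x).filter (fun p => ρ x p ∈ (fun w => FreeGroup.of i * w) '' E)).card : ℝ) ≤
        ((B (x * t)).filter (fun p => ρ (x * t) p ∈ E)).card + (B x \ B (x * t)).card := by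
        exact_mod_cast h2
      linarith
    have hsum := Finset.sum_le_sum (fun x (_ : x ∈ (Finset.univ : Finset (Equiv.Perm (W n)))) => hstep x)
    rw [Finset.sum_add_distrib, ← Finset.mul_sum] at hsum
    have hperm : ∑ x : Equiv.Perm (W n),
        (((B (x * t)).filter (fun p => ρ (x * t) p ∈ E)).card : ℝ) = (m E : ℝ) := by
      have := Equiv.sum_comp (Equiv.mulRight t)
        (fun x : Equiv.Perm (W n) => (((B x).filter (fun p => ρ x p ∈ E)).card : ℝ))
      simp only [Equiv.coe_mulRight] at this
      refine Eq.trans ?_ (this.trans ?_)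
      · rfl
      · simp [m]
    rw [hperm] at hsum
    have hTc : (T : ℝ) = ∑ x : Equiv.Perm (W n), ((B x).card : ℝ) := by simp [T]
    rw [hTc]
    refine le_trans (le_of_eq ?_) hsum
    simp [m]
  -- the paradoxical decomposition
  have hpar : ∀ i : Bool, (T : ℝ) ≤ m (FreeGroup.startsWith (i, true)) +
      m (FreeGroup.startsWith (i, false)) + (1 / 4) * T := by
    intro i
    have h1 := hsub (FreeGroup.startsWith (i, true))
      ((fun w => FreeGroup.of i * w) '' FreeGroup.startsWith (i, false)) (by
        refine Set.eq_univ_of_forall fun g => ?_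
        by_cases hg : g ∈ FreeGroup.startsWith (i, true)
        · exact Or.inl hg
        · refine Or.inr ⟨FreeGroup.mk [(i, false)] * g, ?_, ?_⟩
          · exact FreeGroup.startsWith_mk_mul (w := (i, false)) g hg
          · have : (FreeGroup.mk [(i, false)] : F) = (FreeGroup.of i)⁻¹ := rfl
            simp only [this]
            simp)
    have h2 := htrans i (FreeGroup.startsWith (i, false))
    have h1' : (T : ℝ) ≤ m (FreeGroup.startsWith (i, true)) +
      m ((fun w => FreeGroup.of i * w) '' FreeGroup.startsWith (i, false)) := by exact_mod_cast h1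
    linarith
  have h1 := hpar true
  have h2 := hpar false
  have h3 : ((m (FreeGroup.startsWith (true, true)) : ℝ) + m (FreeGroup.startsWith (true, false)) +
      m (FreeGroup.startsWith (false, true)) + m (FreeGroup.startsWith (false, false))) ≤ T := by
    have : ∑ c : Bool × Bool, m (FreeGroup.startsWith c) =
        m (FreeGroup.startsWith (true, true)) + m (FreeGroup.startsWith (true, false)) +
      m (FreeGroup.startsWith (false, true)) + m (FreeGroup.startsWith (false, false)) := by
      rw [Fintype.sum_prod_type]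
      simp only [Fintype.sum_bool]
      ring
    rw [this] at hfour
    exact_mod_cast hfour
  have hT' : (0 : ℝ) < T := by exact_mod_cast hT
  linarith

end Pool.Agent.K878.ONL
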