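import Mathlib

/-!
# Operators on `L¹` of a countable space: the norm is attained up to a constant on points
-/

set_option autoImplicit false

open MeasureTheory Filter Topology
open scoped ENNReal

namespace Pool.Agent.K878.ONL

variable {X E : Type*} [MeasurableSpace X] [NormedAddCommGroup E]

theorem norm_add_disjoint {μ : Measure X} {f g : X → E} (hf : MemLp f 1 μ) (hg : MemLp g 1 μ)
    (h : Disjoint (Function.support f) (Function.support g)) :
    ‖hf.toLp f + hg.toLp g‖ = ‖hf.toLp f‖ + ‖hg.toLp g‖ := by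
  rw [← MemLp.toLp_add, Lp.norm_toLp, Lp.norm_toLp, Lp.norm_toLp,
    ← ENNReal.toReal_add hf.2.ne hg.2.ne]
  congr 1
  rw [eLpNorm_one_eq_lintegral_enorm, eLpNorm_one_eq_lintegral_enorm,
    eLpNorm_one_eq_lintegral_enorm, ← lintegral_add_left' hf.1.enorm]
  refine lintegral_congr fun x => ?_
  by_cases hx : f x = 0
  · simp [hx]
  · have hgx : g x = 0 := by
      by_contra hg0
      exact Set.disjoint_left.1 h hx hg0
    simp [hgx]

theorem norm_ind {μ : Measure X} {s : Set X} (hs : MeasurableSet s) (hμ : μ s ≠ ⊤) (c : E) :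
    ‖indicatorConstLp 1 hs hμ c‖ = ‖c‖ * μ.real s := by
  rw [norm_indicatorConstLp (by norm_num) (by norm_num)]
  simp

/-- if an operator on `L¹` has small norm on the functions supported by a point, then it has small
norm -/
theorem small_of_points [Countable X] [MeasurableSingletonClass X] [NormedSpace ℝ E] {μ : Measure X}
    (hfin : ∀ x, μ {x} ≠ ⊤) (T : Lp E 1 μ →L[ℝ] Lp E 1 μ) (C : ℝ)
    (hT : ∀ x, ∀ v : E, ‖T (indicatorConstLp 1 (measurableSet_singleton x) (hfin x) v)‖ ≤
      C * ‖indicatorConstLp 1 (measurableSet_singleton x) (hfin x) v‖)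
    (f : Lp E 1 μ) : ‖T f‖ ≤ C * ‖f‖ := by
  have hclosed : IsClosed {f : Lp E 1 μ | ‖T f‖ ≤ C * ‖f‖} := by
    exact isClosed_le (T.continuous.norm) (continuous_const.mul continuous_norm)
  -- finite sets
  have hfinite : ∀ (v : E) (t : Set X) (ht : t.Finite) (hm : MeasurableSet t) (hμ : μ t ≠ ⊤),
      ‖T (indicatorConstLp 1 hm hμ v)‖ ≤ C * ‖indicatorConstLp 1 hm hμ v‖ := by
    intro v t ht
    induction t, ht using Set.Finite.induction_on with
    | empty =>
      intro hm hμ
      rw [indicatorConstLp_empty]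
      simp
    | @insert x t hx ht ih =>
      intro hm hμ
      have hmt : MeasurableSet t := ht.measurableSet
      have hμt : μ t ≠ ⊤ := ne_top_of_le_ne_top hμ (measure_mono (Set.subset_insert _ _))
      have ih := ih hmt hμt
      have hd : Disjoint ({x} : Set X) t := Set.disjoint_singleton_left.2 hx
      have e1 : indicatorConstLp 1 hm hμ v =
          indicatorConstLp 1 (measurableSet_singleton x) (hfin x) v + indicatorConstLp 1 hmt hμt v := by
        rw [← indicatorConstLp_disjoint_union (measurableSet_singleton x) hmt (hfin x) hμt hd]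
        congr 1
      have e2 : ‖indicatorConstLp 1 hm hμ v‖ =
          ‖indicatorConstLp 1 (measurableSet_singleton x) (hfin x) v‖ +
            ‖indicatorConstLp 1 hmt hμt v‖ := by
        rw [norm_ind, norm_ind, norm_ind, ← mul_add]
        congr 1
        rw [Set.insert_eq, measureReal_union hd hmt (hfin x) hμt]
      rw [e2, e1, map_add, mul_add]
      exact (norm_add_le _ _).trans (add_le_add (hT x v) ih)
  obtain ⟨g, hg⟩ := exists_injective_nat X
  refine Lp.induction (by norm_num) (fun f : Lp E 1 μ => ‖T f‖ ≤ C * ‖f‖) ?_ ?_ hclosed f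
  · intro v s hs hμs
    rw [Lp.simpleFunc.coe_indicatorConst]
    set t : ℕ → Set X := fun n => s ∩ {x | g x < n} with ht
    have htf : ∀ n, (t n).Finite := by
      intro n
      refine Set.Finite.subset ?_ Set.inter_subset_right
      exact Set.Finite.preimage hg.injOn (Set.finite_Iio n)
    have htm : ∀ n, MeasurableSet (t n) := fun n => (htf n).measurableSet
    have htμ : ∀ n, μ (t n) ≠ ⊤ := fun n =>
      ne_top_of_le_ne_top hμs.ne (measure_mono Set.inter_subset_left)
    have hlim : Tendsto (fun n => indicatorConstLp 1 (htm n) (htμ n) v) atTop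
        (𝓝 (indicatorConstLp 1 hs hμs.ne v)) := by
      refine tendsto_indicatorConstLp_set (by norm_num) ?_
      have h1 : ∀ n, symmDiff (t n) s = s \ t n := by
        intro n
        have h0 : t n ⊆ s := Set.inter_subset_left
        ext x
        rw [Set.mem_symmDiff]
        constructor
        · rintro (⟨h1, h2⟩ | h1)
          · exact absurd (h0 h1) h2
          · exact h1
        · intro h1
          exact Or.inr h1
      simp only [h1]
      have h2 : Tendsto (fun n => μ (s \ t n)) atTop (𝓝 (μ (⋂ n, s \ t n))) := by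
        refine tendsto_measure_iInter_atTop (fun n => (hs.diff (htm n)).nullMeasurableSet) ?_ ⟨0, ?_⟩
        · intro a b hab x hx
          refine ⟨hx.1, fun hxa => hx.2 ⟨hxa.1, ?_⟩⟩
          exact lt_of_lt_of_le hxa.2 hab
        · exact ne_top_of_le_ne_top hμs.ne (measure_mono Set.sdiff_subset)
      have h3 : (⋂ n, s \ t n) = ∅ := by
        ext x
        simp only [Set.mem_iInter, Set.mem_empty_iff_false, iff_false, not_forall]
        refine ⟨g x + 1, fun hx => hx.2 ⟨hx.1, ?_⟩⟩
        exact Nat.lt_succ_self (g x)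
      rw [h3, measure_empty] at h2
      exact h2
    exact hclosed.mem_of_tendsto hlim (Eventually.of_forall fun n => hfinite v (t n) (htf n) (htm n) (htμ n))
  · intro f g hf hg hd h1 h2
    rw [map_add, norm_add_disjoint hf hg hd, mul_add]
    exact (norm_add_le _ _).trans (add_le_add h1 h2)

theorem exists_point [Countable X] [MeasurableSingletonClass X] [NormedSpace ℝ E] [Nontrivial E]
    {μ : Measure X} (hfin : ∀ x, μ {x} ≠ ⊤) (hμ : μ ≠ 0) (T : Lp E 1 μ →L[ℝ] Lp E 1 μ) :
    ∃ ξ : Lp E 1 μ, ξ ≠ 0 ∧ (∃ x : X, ∀ᵐ z ∂μ, z ∉ ({x} : Set X) → ξ z = 0) ∧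
      (1 / 2) * ‖T‖ * ‖ξ‖ ≤ ‖T ξ‖ := by
  by_contra hcon
  push Not at hcon
  have hsupp : ∀ x (v : E), ∀ᵐ z ∂μ, z ∉ ({x} : Set X) →
      indicatorConstLp 1 (measurableSet_singleton x) (hfin x) v z = 0 := fun x v =>
    indicatorConstLp_coeFn_notMem
  have h1 := small_of_points hfin T ((1 / 2) * ‖T‖) (fun x v => by
    by_cases h0 : indicatorConstLp 1 (measurableSet_singleton x) (hfin x) v = 0
    · rw [h0]; simp
    · exact (hcon _ h0 ⟨x, hsupp x v⟩).le)
  have h2 : ‖T‖ ≤ (1 / 2) * ‖T‖ := ContinuousLinearMap.opNorm_le_bound _ (by positivity) h1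
  have h3 : ‖T‖ = 0 := by
    have := norm_nonneg T
    linarith
  -- a point with positive mass
  have h4 : ∃ x, μ {x} ≠ 0 := by
    by_contra hx
    push Not at hx
    apply hμ
    rw [← Measure.measure_univ_eq_zero]
    rw [← Set.iUnion_of_singleton X]
    exact measure_iUnion_null hx
  obtain ⟨x, hx⟩ := h4
  obtain ⟨v, hv⟩ := exists_ne (0 : E)
  have h5 : indicatorConstLp 1 (measurableSet_singleton x) (hfin x) v ≠ 0 := by
    intro h0
    have := norm_ind (measurableSet_singleton x) (hfin x) v
    rw [h0, norm_zero] at this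
    have h6 : μ.real {x} ≠ 0 := by
      rw [Measure.real, ENNReal.toReal_ne_zero]
      exact ⟨hx, hfin x⟩
    exact (mul_ne_zero (norm_ne_zero_iff.2 hv) h6) this.symm
  have h7 := hcon _ h5 ⟨x, hsupp x v⟩
  rw [h3] at h7
  simp only [mul_zero, zero_mul] at h7
  exact absurd h7 (not_lt.2 (norm_nonneg _))

end Pool.Agent.K878.ONL
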